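import Pool.Agent.H286Z.Conn.Main

set_option autoImplicit false

/-! No disconnected graph `H` has the limit property, in the labelled model or in the unlabelled
model. -/

open Pool.Agent.H286Z.Conn

theorem Pool.Agent.Results.MP_66c21b_co.NoDisconnectedH.result
    (W : Type) [Finite W] (H : SimpleGraph W) (hH : ¬ H.Preconnected) :
    ¬ HasLimitProperty (pLab H) ∧ ¬ HasLimitProperty (pUnlab H) :=
  ⟨fun ⟨q, _, h1, h⟩ => (main H hH q h1).1 h, fun ⟨q, _, h1, h⟩ => (main H hH q h1).2 h⟩
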